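import Pool.Agent.Run7.h820.UM.Stm

/-!
Project UM (helper820), piece CMP: the composition of a map of `Σ` with the `N`-th root of a map of the
form `z exp (-A (1/z))`, rescaled.
-/

set_option autoImplicit false
open Complex Filter Topology Set Metric MeasureTheory

namespace Pool.Agent.Run7.h623.UM

open _root_.Run7.h820.UM
open Q90.SM (IsSig marshall pmean circ FF)

lemma inv_mem {z : ℂ} (hz : 1 < ‖z‖) : z⁻¹ ∈ ball (0:ℂ) 1 := by
  rw [mem_ball_zero_iff, norm_inv]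
  exact inv_lt_one_of_one_lt₀ hz

lemma invpow_mem {z : ℂ} (hz : 1 < ‖z‖) {N : ℕ} (hN : 1 ≤ N) : z⁻¹ ^ N ∈ ball (0:ℂ) 1 := by
  have h := inv_mem hz
  rw [mem_ball_zero_iff] at h ⊢
  rw [norm_pow]
  exact pow_lt_one₀ (norm_nonneg _) h (by omega)

lemma pow_gt {z : ℂ} (hz : 1 < ‖z‖) {N : ℕ} (hN : 1 ≤ N) : 1 < ‖z ^ N‖ := by
  rw [norm_pow]
  exact one_lt_pow₀ hz (by omega)

lemma ne0 {z : ℂ} (hz : 1 < ‖z‖) : z ≠ 0 := by
  rintro rfl
  simp at hz
  linarith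

/-- the `N`-th root -/
noncomputable def TT (A : ℂ → ℂ) (N : ℕ) (z : ℂ) : ℂ := z * Complex.exp (-(A (z⁻¹ ^ N) / N))

lemma WW_eq (A : ℂ → ℂ) (r : ℝ) (N : ℕ) (z : ℂ) : WW A r N z = (1 + r) * TT A N z := rfl

theorem TT_pow {φ g A : ℂ → ℂ} {B : ℝ} (hT : Tg φ g A B) {N : ℕ} (hN : 1 ≤ N) {z : ℂ}
    (hz : 1 < ‖z‖) : TT A N z ^ N = φ (z ^ N) := by
  have hNC : (N:ℂ) ≠ 0 := by exact_mod_cast (by omega : N ≠ 0)
  rw [hT.eq _ (pow_gt hz hN), TT, mul_pow, ← Complex.exp_nat_mul, inv_pow]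
  congr 2
  field_simp

theorem TT_norm {φ g A : ℂ → ℂ} {B : ℝ} (hT : Tg φ g A B) {N : ℕ} (hN : 1 ≤ N) {z : ℂ}
    (hz : 1 < ‖z‖) : Real.exp (-(B / N)) * ‖z‖ ≤ ‖TT A N z‖ := by
  have hNpos : (0:ℝ) < N := by exact_mod_cast (by omega : 0 < N)
  have hbA := hT.bA _ (invpow_mem hz hN)
  rw [TT, norm_mul, Complex.norm_exp, mul_comm]
  apply mul_le_mul_of_nonneg_left _ (norm_nonneg _)
  apply Real.exp_le_exp.2
  have e3 : |(-(A (z⁻¹ ^ N) / N)).re| ≤ ‖A (z⁻¹ ^ N) / N‖ := by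
    rw [← norm_neg]; exact Complex.abs_re_le_norm _
  have e4 : ‖A (z⁻¹ ^ N) / N‖ ≤ B / N := by
    rw [norm_div, Complex.norm_natCast]
    exact div_le_div_of_nonneg_right hbA hNpos.le
  linarith [(abs_le.1 e3).1]

theorem WW_norm {φ g A : ℂ → ℂ} {B r : ℝ} (hT : Tg φ g A B) {N : ℕ} (hN : 1 ≤ N) (hr : 0 < r)
    (hB : Real.exp (B / N) < 1 + r) {z : ℂ} (hz : 1 < ‖z‖) : ‖z‖ < ‖WW A r N z‖ := by
  have h1 := TT_norm hT hN hz
  have h2 : ‖WW A r N z‖ = (1 + r) * ‖TT A N z‖ := by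
    rw [WW_eq, norm_mul]
    congr 1
    rw [show (1 + (r:ℂ)) = ((1 + r : ℝ) : ℂ) by push_cast; ring, Complex.norm_real,
      Real.norm_of_nonneg (by linarith)]
  have h3 : 1 < (1 + r) * Real.exp (-(B / N)) := by
    have h4 := Real.exp_pos (-(B / N))
    have h5 : Real.exp (B / N) * Real.exp (-(B / N)) = 1 := by
      rw [← Real.exp_add]; simp
    nlinarith
  have hz0 : 0 < ‖z‖ := by linarith
  rw [h2]
  calc ‖z‖ = 1 * ‖z‖ := by ring
    _ < ((1 + r) * Real.exp (-(B / N))) * ‖z‖ := mul_lt_mul_of_pos_right h3 hz0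
    _ = (1 + r) * (Real.exp (-(B / N)) * ‖z‖) := by ring
    _ ≤ (1 + r) * ‖TT A N z‖ := mul_le_mul_of_nonneg_left h1 (by linarith)

/-- the derivative of the `N`-th root -/
theorem TT_der {φ g A : ℂ → ℂ} {B : ℝ} (hT : Tg φ g A B) {N : ℕ} (hN : 1 ≤ N) {z : ℂ}
    (hz : 1 < ‖z‖) : HasDerivAt (TT A N)
      (Complex.exp (g (z ^ N) + ((N:ℂ) - 1) / N * A (z⁻¹ ^ N))) z := by
  have hNC : (N:ℂ) ≠ 0 := by exact_mod_cast (by omega : N ≠ 0)
  have hz0 := ne0 hz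
  have hAat : ∀ v ∈ ball (0:ℂ) 1, DifferentiableAt ℂ A v := fun v hv =>
    (hT.dA v hv).differentiableAt (isOpen_ball.mem_nhds hv)
  -- the relation for `φ`
  have hφ : ∀ w : ℂ, 1 < ‖w‖ →
      Complex.exp (g w) = Complex.exp (-A w⁻¹) * (1 + w⁻¹ * deriv A w⁻¹) := by
    intro w hw
    have hw0 := ne0 hw
    have h1 : HasDerivAt (fun z => A z⁻¹) (deriv A w⁻¹ * (-(w ^ 2)⁻¹)) w :=
      (hAat w⁻¹ (inv_mem hw)).hasDerivAt.comp w (hasDerivAt_inv hw0)
    have h2 := (hasDerivAt_id w).mul (h1.neg.cexp)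
    have h3 : HasDerivAt φ (Complex.exp (-A w⁻¹) * (1 + w⁻¹ * deriv A w⁻¹)) w := by
      have h4 : (fun z : ℂ => z * Complex.exp (-A z⁻¹)) =ᶠ[𝓝 w] φ := by
        have : {z : ℂ | 1 < ‖z‖} ∈ 𝓝 w := (isOpen_lt continuous_const continuous_norm).mem_nhds hw
        filter_upwards [this] with z hz
        exact (hT.eq z hz).symm
      have h5 : HasDerivAt (fun z : ℂ => z * Complex.exp (-A z⁻¹))
          (Complex.exp (-A w⁻¹) * (1 + w⁻¹ * deriv A w⁻¹)) w := by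
        refine h2.congr_deriv ?_
        simp only [id, Pi.neg_apply]
        field_simp
      exact h5.congr_of_eventuallyEq h4.symm
    rw [hT.sig.2.2.2.2.1 w hw, h3.deriv]
  -- the derivative
  have hu : HasDerivAt (fun z : ℂ => z⁻¹ ^ N) ((N:ℂ) * z⁻¹ ^ (N - 1) * (-(z ^ 2)⁻¹)) z :=
    (hasDerivAt_inv hz0).pow N
  have h1 : HasDerivAt (fun z : ℂ => A (z⁻¹ ^ N))
      (deriv A (z⁻¹ ^ N) * ((N:ℂ) * z⁻¹ ^ (N - 1) * (-(z ^ 2)⁻¹))) z :=
    HasDerivAt.comp (h₂ := A) (h := fun z : ℂ => z⁻¹ ^ N) z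
      (hAat _ (invpow_mem hz hN)).hasDerivAt hu
  have h2 := (hasDerivAt_id z).mul (((h1.div_const (N:ℂ)).neg).cexp)
  have h3 : TT A N = fun z => id z * Complex.exp (-(A (z⁻¹ ^ N) / N)) := by
    funext z; rfl
  rw [h3]
  refine h2.congr_deriv ?_
  have h4 := hφ (z ^ N) (pow_gt hz hN)
  rw [← inv_pow] at h4
  have h5 : Complex.exp (g (z ^ N) + ((N:ℂ) - 1) / N * A (z⁻¹ ^ N)) =
      Complex.exp (-(A (z⁻¹ ^ N) / N)) * (1 + z⁻¹ ^ N * deriv A (z⁻¹ ^ N)) := by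
    rw [Complex.exp_add, h4]
    have h6 : Complex.exp (-A (z⁻¹ ^ N)) * Complex.exp (((N:ℂ) - 1) / N * A (z⁻¹ ^ N)) =
        Complex.exp (-(A (z⁻¹ ^ N) / N)) := by
      rw [← Complex.exp_add]
      congr 1
      field_simp
      ring
    rw [← h6]; ring
  rw [h5]
  have h7 : z * (z⁻¹ ^ (N - 1) * (z ^ 2)⁻¹) = z⁻¹ ^ N := by
    obtain ⟨m, rfl⟩ : ∃ m, N = m + 1 := ⟨N - 1, by omega⟩
    have e1 : (z ^ 2)⁻¹ = z⁻¹ * z⁻¹ := by rw [sq, mul_inv]
    rw [Nat.add_sub_cancel, e1, pow_succ z⁻¹ m]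
    calc z * (z⁻¹ ^ m * (z⁻¹ * z⁻¹)) = z⁻¹ ^ m * z⁻¹ * (z * z⁻¹) := by ring
      _ = z⁻¹ ^ m * z⁻¹ := by rw [mul_inv_cancel₀ hz0, mul_one]
  simp only [id, Pi.neg_apply]
  rw [← h7]
  generalize z⁻¹ ^ (N - 1) = q at *
  generalize Complex.exp (-(A (z⁻¹ ^ N) / N)) = e at *
  generalize deriv A (z⁻¹ ^ N) = d at *
  field_simp

theorem t_CMP : S_CMP := by
  intro ψ h φ g A B r N hS hT hr hN hB
  have hNC : (N:ℂ) ≠ 0 := by exact_mod_cast (by omega : N ≠ 0)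
  have hopen : IsOpen {z : ℂ | 1 < ‖z‖} := isOpen_lt continuous_const continuous_norm
  have hr1 : (1 + (r:ℂ)) ≠ 0 := by
    have : (1 + r : ℝ) ≠ 0 := by linarith
    exact_mod_cast this
  have hAat : ∀ v ∈ ball (0:ℂ) 1, DifferentiableAt ℂ A v := fun v hv =>
    (hT.dA v hv).differentiableAt (isOpen_ball.mem_nhds hv)
  have hW : ∀ z : ℂ, 1 < ‖z‖ → 1 < ‖WW A r N z‖ := fun z hz => hz.trans (WW_norm hT hN hr hB hz)
  have hWd : ∀ z : ℂ, 1 < ‖z‖ → HasDerivAt (WW A r N)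
      ((1 + r) * Complex.exp (g (z ^ N) + ((N:ℂ) - 1) / N * A (z⁻¹ ^ N))) z := fun z hz =>
    (TT_der hT hN hz).const_mul (1 + (r:ℂ))
  have hψat : ∀ w : ℂ, 1 < ‖w‖ → DifferentiableAt ℂ ψ w := fun w hw =>
    (hS.1 w hw).differentiableAt (hopen.mem_nhds hw)
  have hhat : ∀ w : ℂ, 1 < ‖w‖ → DifferentiableAt ℂ h w := fun w hw =>
    (hS.2.2.2.1 w hw).differentiableAt (hopen.mem_nhds hw)
  have hgat : ∀ w : ℂ, 1 < ‖w‖ → DifferentiableAt ℂ g w := fun w hw =>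
    (hT.sig.2.2.2.1 w hw).differentiableAt (hopen.mem_nhds hw)
  have hmain : ∀ z : ℂ, 1 < ‖z‖ → HasDerivAt (fun z => ψ (WW A r N z) / (1 + r))
      (Complex.exp (h (WW A r N z) + g (z ^ N) + ((N:ℂ) - 1) / N * A (z⁻¹ ^ N))) z := by
    intro z hz
    have h1 := HasDerivAt.comp (h₂ := ψ) (h := WW A r N) z (hψat _ (hW z hz)).hasDerivAt (hWd z hz)
    have h2 := h1.div_const (1 + (r:ℂ))
    refine h2.congr_deriv ?_
    have key : ∀ x y : ℂ, x * ((1 + (r:ℂ)) * y) / (1 + (r:ℂ)) = x * y := by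
      intro x y
      field_simp
    rw [key, ← hS.2.2.2.2.1 _ (hW z hz), ← Complex.exp_add]
    congr 1
    ring
  have hWcob : Tendsto (WW A r N) (Bornology.cobounded ℂ) (Bornology.cobounded ℂ) := by
    rw [← tendsto_norm_atTop_iff_cobounded]
    refine tendsto_atTop_mono' _ ?_ tendsto_norm_cobounded_atTop
    have hev : ∀ᶠ z : ℂ in Bornology.cobounded ℂ, 1 < ‖z‖ :=
      tendsto_norm_cobounded_atTop.eventually (eventually_gt_atTop 1)
    filter_upwards [hev] with z hz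
    exact (WW_norm hT hN hr hB hz).le
  have hinv0 : Tendsto (fun z : ℂ => z⁻¹) (Bornology.cobounded ℂ) (𝓝 0) := tendsto_inv₀_cobounded
  have hA0 : Tendsto (fun z : ℂ => A (z⁻¹ ^ N)) (Bornology.cobounded ℂ) (𝓝 0) := by
    have h1 : ContinuousAt (fun v : ℂ => A (v ^ N)) 0 := by
      have h2 : ContinuousAt A ((0:ℂ) ^ N) := by
        rw [zero_pow (by omega)]
        exact (hAat 0 (by simp)).continuousAt
      exact ContinuousAt.comp (g := A) (f := fun v : ℂ => v ^ N) h2 (continuous_pow N).continuousAt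
    have h3 := h1.tendsto.comp hinv0
    simpa [Function.comp_def, zero_pow (show N ≠ 0 by omega), hT.A0] using h3
  refine ⟨?_, ?_, ?_, ?_, ?_, ?_⟩
  · intro z hz
    exact (hmain z hz).differentiableAt.differentiableWithinAt
  · intro z hz z' hz' heq
    have hz1 : 1 < ‖z‖ := hz
    have hz1' : 1 < ‖z'‖ := hz'
    have h1 : ψ (WW A r N z) = ψ (WW A r N z') := by
      have : ψ (WW A r N z) / (1 + r) = ψ (WW A r N z') / (1 + r) := heq
      exact (div_left_inj' hr1).1 this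
    have h2 : WW A r N z = WW A r N z' := hS.2.1 (hW z hz1) (hW z' hz1') h1
    have h3 : TT A N z = TT A N z' := mul_left_cancel₀ hr1 h2
    have h4 : φ (z ^ N) = φ (z' ^ N) := by
      rw [← TT_pow hT hN hz1, ← TT_pow hT hN hz1', h3]
    have h5 : z ^ N = z' ^ N := hT.sig.2.1 (pow_gt hz1 hN) (pow_gt hz1' hN) h4
    have h6 : z⁻¹ ^ N = z'⁻¹ ^ N := by rw [inv_pow, inv_pow, h5]
    unfold TT at h3
    rw [h6] at h3
    exact mul_right_cancel₀ (Complex.exp_ne_zero _) h3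
  · obtain ⟨b, hb⟩ := hS.2.2.1
    -- `T z - z` tends to a limit
    have hE : DifferentiableAt ℂ (fun v : ℂ => Complex.exp (-(A (v ^ N) / N))) 0 := by
      have h2 : DifferentiableAt ℂ A ((0:ℂ) ^ N) := by
        rw [zero_pow (by omega)]
        exact hAat 0 (by simp)
      have h3 : DifferentiableAt ℂ (fun v : ℂ => A (v ^ N)) 0 :=
        DifferentiableAt.comp (g := A) (f := fun v : ℂ => v ^ N) 0 h2 (differentiableAt_pow N)
      exact ((h3.div_const _).neg).cexp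
    obtain ⟨D, hD⟩ : ∃ D, HasDerivAt (fun v : ℂ => Complex.exp (-(A (v ^ N) / N))) D 0 :=
      ⟨_, hE.hasDerivAt⟩
    have h2 : Tendsto (fun z : ℂ => z⁻¹) (Bornology.cobounded ℂ) (𝓝[≠] 0) :=
      tendsto_inv₀_cobounded'
    have h3 : Tendsto (fun z : ℂ => TT A N z - z) (Bornology.cobounded ℂ) (𝓝 D) := by
      have h4 := (hasDerivAt_iff_tendsto_slope.1 hD).comp h2
      refine h4.congr' ?_
      have hne : ∀ᶠ z : ℂ in Bornology.cobounded ℂ, z ≠ 0 := Bornology.eventually_ne_cobounded 0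
      filter_upwards [hne] with z hz
      simp only [Function.comp, slope_def_field, TT, zero_pow (show N ≠ 0 by omega), hT.A0,
        zero_div, neg_zero, Complex.exp_zero, sub_zero]
      field_simp
    have h5 := (hb.comp hWcob).div_const (1 + (r:ℂ))
    refine ⟨b / (1 + r) + D, ?_⟩
    refine (h5.add h3).congr fun z => ?_
    simp only [Function.comp, WW_eq]
    field_simp
    ring
  · intro z hz
    have hz1 : 1 < ‖z‖ := hz
    have h1 : DifferentiableAt ℂ (fun z => h (WW A r N z)) z :=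
      DifferentiableAt.comp (g := h) (f := WW A r N) z (hhat _ (hW z hz1)) (hWd z hz1).differentiableAt
    have h2 : DifferentiableAt ℂ (fun z : ℂ => g (z ^ N)) z :=
      DifferentiableAt.comp (g := g) (f := fun z : ℂ => z ^ N) z (hgat _ (pow_gt hz1 hN))
        (differentiableAt_pow N)
    have h3 : DifferentiableAt ℂ (fun z : ℂ => A (z⁻¹ ^ N)) z :=
      DifferentiableAt.comp (g := A) (f := fun z : ℂ => z⁻¹ ^ N) z (hAat _ (invpow_mem hz1 hN))
        ((hasDerivAt_inv (ne0 hz1)).differentiableAt.pow N)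
    exact ((h1.add h2).add (h3.const_mul _)).differentiableWithinAt
  · intro z hz
    exact (hmain z hz).deriv.symm
  · have h1 : Tendsto (fun z => h (WW A r N z)) (Bornology.cobounded ℂ) (𝓝 0) :=
      hS.2.2.2.2.2.comp hWcob
    have hpow : Tendsto (fun z : ℂ => z ^ N) (Bornology.cobounded ℂ) (Bornology.cobounded ℂ) := by
      rw [← tendsto_norm_atTop_iff_cobounded]
      simp only [norm_pow]
      exact (tendsto_pow_atTop (by omega)).comp tendsto_norm_cobounded_atTop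
    have h2 : Tendsto (fun z : ℂ => g (z ^ N)) (Bornology.cobounded ℂ) (𝓝 0) :=
      hT.sig.2.2.2.2.2.comp hpow
    have h3 := (h1.add h2).add (hA0.const_mul (((N:ℂ) - 1) / N))
    simpa using h3

end Pool.Agent.Run7.h623.UM
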